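import Mathlib

set_option autoImplicit false

/-! Pure ring identities of section C: vector calculus over a commutative ring with
commuting derivations. -/

namespace Pool.Agent.Lib.MP_fbbbeb_an.Alg

open Matrix

variable {A : Type*} [CommRing A]

/-- vectors -/
abbrev V (A : Type*) := Fin 3 → A
/-- matrices -/
abbrev Mx (A : Type*) := Matrix (Fin 3) (Fin 3) A

/-- triple product -/
def tp (a b c : V A) : A := a ⬝ᵥ (b ⨯₃ c)

/-- polarised determinant `eps eps P Q R` -/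
def dd (P Q R : Mx A) : A :=
  tp (P 0) (Q 1) (R 2) + tp (P 1) (Q 2) (R 0) + tp (P 2) (Q 0) (R 1)
    - tp (P 0) (Q 2) (R 1) - tp (P 1) (Q 0) (R 2) - tp (P 2) (Q 1) (R 0)

/-- polarised adjugate applied to a vector -/
def cr (P Q : Mx A) (Z : V A) : V A :=
  Z 0 • (P 1 ⨯₃ Q 2 - P 2 ⨯₃ Q 1) + Z 1 • (P 2 ⨯₃ Q 0 - P 0 ⨯₃ Q 2)
    + Z 2 • (P 0 ⨯₃ Q 1 - P 1 ⨯₃ Q 0)

theorem tp_eq (a b c : V A) : tp a b c =
    a 0 * (b 1 * c 2 - b 2 * c 1) + a 1 * (b 2 * c 0 - b 0 * c 2)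
      + a 2 * (b 0 * c 1 - b 1 * c 0) := by
  simp [tp, dotProduct, Fin.sum_univ_three, cross_apply]

theorem cr_0 (P Q : Mx A) (Z : V A) : cr P Q Z 0 =
    Z 0 * ((P 1 1 * Q 2 2 - P 1 2 * Q 2 1) - (P 2 1 * Q 1 2 - P 2 2 * Q 1 1))
    + Z 1 * ((P 2 1 * Q 0 2 - P 2 2 * Q 0 1) - (P 0 1 * Q 2 2 - P 0 2 * Q 2 1))
    + Z 2 * ((P 0 1 * Q 1 2 - P 0 2 * Q 1 1) - (P 1 1 * Q 0 2 - P 1 2 * Q 0 1)) := by
  simp [cr, cross_apply]

theorem cr_1 (P Q : Mx A) (Z : V A) : cr P Q Z 1 =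
    Z 0 * ((P 1 2 * Q 2 0 - P 1 0 * Q 2 2) - (P 2 2 * Q 1 0 - P 2 0 * Q 1 2))
    + Z 1 * ((P 2 2 * Q 0 0 - P 2 0 * Q 0 2) - (P 0 2 * Q 2 0 - P 0 0 * Q 2 2))
    + Z 2 * ((P 0 2 * Q 1 0 - P 0 0 * Q 1 2) - (P 1 2 * Q 0 0 - P 1 0 * Q 0 2)) := by
  simp [cr, cross_apply]

theorem cr_2 (P Q : Mx A) (Z : V A) : cr P Q Z 2 =
    Z 0 * ((P 1 0 * Q 2 1 - P 1 1 * Q 2 0) - (P 2 0 * Q 1 1 - P 2 1 * Q 1 0))
    + Z 1 * ((P 2 0 * Q 0 1 - P 2 1 * Q 0 0) - (P 0 0 * Q 2 1 - P 0 1 * Q 2 0))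
    + Z 2 * ((P 0 0 * Q 1 1 - P 0 1 * Q 1 0) - (P 1 0 * Q 0 1 - P 1 1 * Q 0 0)) := by
  simp [cr, cross_apply]

omit [CommRing A] in
theorem vext {a b : V A} (h0 : a 0 = b 0) (h1 : a 1 = b 1) (h2 : a 2 = b 2) : a = b := by
  funext i; fin_cases i <;> assumption

/-! ### `dd` and `cr` : multilinear algebra -/

theorem dd_swap12 (P Q R : Mx A) : dd P Q R = dd Q P R := by
  simp only [dd, tp_eq]; ring

theorem dd_swap23 (P Q R : Mx A) : dd P Q R = dd P R Q := by
  simp only [dd, tp_eq]; ring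

theorem dd_swap13 (P Q R : Mx A) : dd P Q R = dd R Q P := by
  simp only [dd, tp_eq]; ring

theorem dd_add1 (P P' Q R : Mx A) : dd (P + P') Q R = dd P Q R + dd P' Q R := by
  simp only [dd, tp_eq, Matrix.add_apply]; ring

theorem dd_add2 (P Q Q' R : Mx A) : dd P (Q + Q') R = dd P Q R + dd P Q' R := by
  simp only [dd, tp_eq, Matrix.add_apply]; ring

theorem dd_add3 (P Q R R' : Mx A) : dd P Q (R + R') = dd P Q R + dd P Q R' := by
  simp only [dd, tp_eq, Matrix.add_apply]; ring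

theorem dd_zero1 (Q R : Mx A) : dd 0 Q R = 0 := by
  simp [dd, tp_eq]

theorem dd_zero2 (P R : Mx A) : dd P 0 R = 0 := by
  simp [dd, tp_eq]

theorem dd_zero3 (P Q : Mx A) : dd P Q 0 = 0 := by
  simp [dd, tp_eq]

theorem dd_sum1 {ι : Type*} (s : Finset ι) (P : ι → Mx A) (Q R : Mx A) :
    dd (∑ i ∈ s, P i) Q R = ∑ i ∈ s, dd (P i) Q R := by
  classical
  induction s using Finset.induction_on with
  | empty => simp [dd_zero1]
  | insert a s ha ih => rw [Finset.sum_insert ha, Finset.sum_insert ha, dd_add1, ih]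

theorem dd_sum2 {ι : Type*} (s : Finset ι) (P : Mx A) (Q : ι → Mx A) (R : Mx A) :
    dd P (∑ i ∈ s, Q i) R = ∑ i ∈ s, dd P (Q i) R := by
  rw [dd_swap12, dd_sum1]; exact Finset.sum_congr rfl fun i _ => dd_swap12 _ _ _

theorem dd_sum3 {ι : Type*} (s : Finset ι) (P Q : Mx A) (R : ι → Mx A) :
    dd P Q (∑ i ∈ s, R i) = ∑ i ∈ s, dd P Q (R i) := by
  rw [dd_swap13, dd_sum1]; exact Finset.sum_congr rfl fun i _ => dd_swap13 _ _ _

theorem dd_self (P : Mx A) : dd P P P = 6 * P.det := by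
  simp only [dd, tp_eq, det_fin_three]; ring

theorem cr_swap (P Q : Mx A) (Z : V A) : cr P Q Z = cr Q P Z := by
  apply vext <;> simp only [cr_0, cr_1, cr_2] <;> ring

theorem cr_add1 (P P' Q : Mx A) (Z : V A) : cr (P + P') Q Z = cr P Q Z + cr P' Q Z := by
  apply vext <;> simp only [cr_0, cr_1, cr_2, Matrix.add_apply, Pi.add_apply] <;> ring

theorem cr_add2 (P Q Q' : Mx A) (Z : V A) : cr P (Q + Q') Z = cr P Q Z + cr P Q' Z := by
  apply vext <;> simp only [cr_0, cr_1, cr_2, Matrix.add_apply, Pi.add_apply] <;> ring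

theorem cr_add3 (P Q : Mx A) (Z Z' : V A) : cr P Q (Z + Z') = cr P Q Z + cr P Q Z' := by
  apply vext <;> simp only [cr_0, cr_1, cr_2, Pi.add_apply] <;> ring

theorem cr_self (P : Mx A) (Z : V A) : cr P P Z = (2 : A) • (P.adjugate *ᵥ Z) := by
  apply vext <;>
    simp [cr_0, cr_1, cr_2, adjugate_fin_three, dotProduct, Fin.sum_univ_three] <;> ring

/-- `adj F (F η) = J η` -/
theorem adj_mul (F : Mx A) (η : V A) : F.adjugate *ᵥ (F *ᵥ η) = F.det • η := by
  rw [mulVec_mulVec, adjugate_mul, smul_mulVec, one_mulVec]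

theorem cr_main (F : Mx A) (η : V A) : cr F F (F *ᵥ η) = (2 * F.det) • η := by
  rw [cr_self, adj_mul, smul_smul]

/-- rank one part of the second slot -/
theorem cr_rank_one (P : Mx A) (b κ Y : V A) :
    cr P (vecMulVec b κ) Y = κ ⨯₃ (Pᵀ *ᵥ (Y ⨯₃ b)) := by
  apply vext <;>
    simp [cr_0, cr_1, cr_2, vecMulVec_apply, cross_apply, mulVec, dotProduct,
      Fin.sum_univ_three] <;> ring

/-- increment of six times the determinant -/
theorem det_add (P Y : Mx A) :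
    6 * (P + Y).det = 6 * P.det + (3 * dd Y P P + 3 * dd Y Y P + dd Y Y Y) := by
  simp only [dd, tp_eq, det_fin_three, Matrix.add_apply]; ring

/-- the expansion used in `Update` -/
theorem det_update (Xb W Q Y : Mx A) :
    6 * (Xb + W + Q + Y).det = 6 * (Xb + W + Q).det + (3 * dd Y Xb Xb
      + (6 * dd Y W Xb + 3 * dd Y W W + 3 * dd Y Y (Xb + W) + dd Y Y Y)
      + (6 * dd Y Q (Xb + W) + 3 * dd Y Q Q + 3 * dd Y Y Q)) := by
  rw [det_add]
  simp only [dd_add2, dd_add3]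
  rw [dd_swap23 Y Xb W, dd_swap23 Y Xb Q, dd_swap23 Y W Q]
  ring

/-- a vector orthogonal to `k` is `k × (ζ × k)` over `|k|²` -/
theorem cross_cross (k ζ : V A) : k ⨯₃ (ζ ⨯₃ k) = (k ⬝ᵥ k) • ζ - (k ⬝ᵥ ζ) • k := by
  apply vext <;> simp [cross_apply, dotProduct, Fin.sum_univ_three] <;> ring

theorem eq_cross (k ζ : V A) (ι ϖ : A) (hι : ι * (k ⬝ᵥ k + ϖ) = 1) (hk : k ⬝ᵥ ζ = 0)
    (hϖ : ϖ • ζ = 0) : ζ = k ⨯₃ (ι • (ζ ⨯₃ k)) := by
  rw [map_smul, cross_cross, hk, zero_smul, sub_zero, smul_smul]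
  have h : (ι * (k ⬝ᵥ k)) • ζ = (ι * (k ⬝ᵥ k + ϖ)) • ζ := by
    rw [mul_add, add_smul, mul_smul ι ϖ, hϖ, smul_zero, add_zero]
  rw [h, hι, one_smul]

/-- Cauchy invariant defect matrix -/
def bf (F Ft : Mx A) : Mx A := Ftᵀ * F - Fᵀ * Ft

theorem bf_transpose (F Ft : Mx A) : (bf F Ft)ᵀ = -bf F Ft := by
  simp [bf, transpose_sub, transpose_mul]

/-- main Weber term for `Y = F η` (symbols) -/
theorem main_alg (F Ft : Mx A) (η ηt : V A) :
    Fᵀ *ᵥ (Ft *ᵥ η + F *ᵥ ηt) - Ftᵀ *ᵥ (F *ᵥ η) = (Fᵀ * F) *ᵥ ηt - bf F Ft *ᵥ η := by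
  simp only [bf, mulVec_add, mulVec_mulVec, sub_mulVec]; abel

/-- `Bf(FH) - B' = Hᵀ (Bf F - B) H` for `H = 1 + η ⊗ k` -/
theorem bf_step (F Ft B : Mx A) (η ηt k π : V A) (s : A) (hB : Bᵀ = -B)
    (hη : (Fᵀ * F) *ᵥ ηt = B *ᵥ η + π + s • k) (h2 : η ⬝ᵥ (B *ᵥ η) = 0) :
    bf (F * (1 + vecMulVec η k)) (Ft * (1 + vecMulVec η k) + F * vecMulVec ηt k)
        - (B + vecMulVec k π - vecMulVec π k)
      = (1 + vecMulVec η k)ᵀ * (bf F Ft - B) * (1 + vecMulVec η k) := by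
  set H : Mx A := 1 + vecMulVec η k with hH
  set w : V A := (Fᵀ * F) *ᵥ ηt with hw
  have gs : (Fᵀ * F)ᵀ = Fᵀ * F := by rw [transpose_mul, transpose_transpose]
  have e1 : (Fᵀ * F) * vecMulVec ηt k = vecMulVec w k := by
    rw [mul_vecMulVec]
  have e2 : (vecMulVec ηt k)ᵀ * (Fᵀ * F) = vecMulVec k w := by
    rw [← gs, ← transpose_mul, e1, transpose_vecMulVec]
  have e3 : bf (F * H) (Ft * H + F * vecMulVec ηt k)
      = Hᵀ * bf F Ft * H + (vecMulVec k w * H - Hᵀ * vecMulVec w k) := by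
    rw [← e1, ← e2]
    simp only [bf, transpose_add, transpose_mul, add_mul, mul_add, mul_sub, sub_mul, mul_assoc]
    abel
  have hBe : ∀ i j, B j i = -B i j := fun i j => by
    have := congrFun (congrFun hB i) j
    simpa using this
  have e4 : vecMulVec k w * H - Hᵀ * vecMulVec w k = vecMulVec k w - vecMulVec w k := by
    rw [hH]
    ext i j
    simp [vecMulVec_apply, mul_apply, Fin.sum_univ_three, Matrix.add_apply, mul_add, add_mul,
      transpose_add]
    ring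
  have e5 : Hᵀ * B * H = B - vecMulVec k (B *ᵥ η) + vecMulVec (B *ᵥ η) k := by
    have a1 : B * vecMulVec η k = vecMulVec (B *ᵥ η) k := by rw [mul_vecMulVec]
    have a2 : vecMulVec k η * B = -vecMulVec k (B *ᵥ η) := by
      have : (vecMulVec k η * B)ᵀ = (-vecMulVec k (B *ᵥ η))ᵀ := by
        rw [transpose_mul, transpose_vecMulVec, hB, neg_mul, a1, transpose_neg,
          transpose_vecMulVec]
      exact transpose_injective this
    have a3 : vecMulVec k η * vecMulVec (B *ᵥ η) k = 0 := by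
      rw [vecMulVec_mul_vecMulVec, h2]; simp
    rw [hH, transpose_add, transpose_one, transpose_vecMulVec, mul_assoc, mul_add, mul_one, a1,
      add_mul, one_mul, mul_add, a2, a3]
    abel
  rw [e3, e4, mul_sub, sub_mul, e5, hη]
  ext i j
  simp [vecMulVec_apply]
  ring

/-! ### the projector of `Solv` -/

/-- `Π = g⁻¹ - κ (g⁻¹ k)(g⁻¹ k)ᵀ` -/
def proj (gi : Mx A) (k : V A) (κ : A) : Mx A := gi - κ • vecMulVec (gi *ᵥ k) (gi *ᵥ k)

theorem proj_mulVec (gi : Mx A) (k h : V A) (κ : A) :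
    proj gi k κ *ᵥ h = gi *ᵥ h - (κ * ((gi *ᵥ k) ⬝ᵥ h)) • (gi *ᵥ k) := by
  rw [proj, sub_mulVec, smul_mulVec, vecMulVec_mulVec]
  simp [mul_smul]

theorem mul_proj (g gi : Mx A) (k h : V A) (κ : A) (hg : g * gi = 1) :
    g *ᵥ (proj gi k κ *ᵥ h) = h - (κ * ((gi *ᵥ k) ⬝ᵥ h)) • k := by
  rw [proj_mulVec, mulVec_sub, mulVec_smul, mulVec_mulVec, mulVec_mulVec, hg, one_mulVec,
    one_mulVec]

theorem dot_proj (gi : Mx A) (k h : V A) (κ ϖ : A) (hs : giᵀ = gi)
    (hκ : κ * (k ⬝ᵥ (gi *ᵥ k) + ϖ) = 1) (hϖ : ϖ • h = 0) :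
    k ⬝ᵥ (proj gi k κ *ᵥ h) = 0 := by
  have e : k ⬝ᵥ (gi *ᵥ h) = (gi *ᵥ k) ⬝ᵥ h := by
    rw [dotProduct_mulVec, ← mulVec_transpose, hs]
  have e0 : ϖ * ((gi *ᵥ k) ⬝ᵥ h) = 0 := by
    rw [← smul_eq_mul, ← dotProduct_smul, hϖ, dotProduct_zero]
  rw [proj_mulVec, dotProduct_sub, dotProduct_smul, e, smul_eq_mul]
  linear_combination (-((gi *ᵥ k) ⬝ᵥ h)) * hκ + κ * e0

/-- inverse Gram matrix from the adjugate and an inverse of the determinant -/
def ginv (F : Mx A) (ι : A) : Mx A := (ι * ι) • (F.adjugate * F.adjugateᵀ)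

theorem ginv_symm (F : Mx A) (ι : A) : (ginv F ι)ᵀ = ginv F ι := by
  simp [ginv, transpose_mul]

theorem gram_mul_ginv (F : Mx A) (ι : A) (h : ι * F.det = 1) : (Fᵀ * F) * ginv F ι = 1 := by
  have e : Fᵀ * F.adjugateᵀ = F.det • (1 : Mx A) := by
    rw [← transpose_mul, adjugate_mul, transpose_smul, transpose_one]
  rw [ginv, mul_smul_comm, mul_assoc, ← mul_assoc F, mul_adjugate, smul_mul_assoc, one_mul,
    mul_smul_comm, e, smul_smul, smul_smul]
  have : ι * ι * F.det * F.det = 1 := by linear_combination (ι * F.det + 1) * h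
  rw [this, one_smul]

/-! ### calculus with derivations -/

section Calc

variable [Algebra ℝ A]

/-- derivations -/
abbrev Der (A : Type*) [CommRing A] [Algebra ℝ A] := Derivation ℝ A A

/-- a derivation applied to a vector -/
def dV (d : Der A) (X : V A) : V A := fun i => d (X i)
/-- a derivation applied to a matrix -/
def dM (d : Der A) (F : Mx A) : Mx A := Matrix.of fun i j => d (F i j)
/-- Jacobian `(DX)_{iI} = D_I X_i` -/
def jac (D : Fin 3 → Der A) (X : V A) : Mx A := Matrix.of fun i I => D I (X i)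
/-- gradient -/
def grad (D : Fin 3 → Der A) (f : A) : V A := fun I => D I f
/-- divergence -/
def dv (D : Fin 3 → Der A) (Z : V A) : A := D 0 (Z 0) + D 1 (Z 1) + D 2 (Z 2)
/-- curl -/
def curl (D : Fin 3 → Der A) (U : V A) : V A :=
  ![D 1 (U 2) - D 2 (U 1), D 2 (U 0) - D 0 (U 2), D 0 (U 1) - D 1 (U 0)]
/-- two derivations commute -/
def Cm (d e : Der A) : Prop := ∀ f, d (e f) = e (d f)
/-- the split `D = D' + κ dφ` -/
def Split (D D' : Fin 3 → Der A) (κ : V A) (dφ : Der A) : Prop :=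
  ∀ I f, D I f = D' I f + κ I * dφ f
/-- Weber form `DXᵀ X_t` -/
def web (D : Fin 3 → Der A) (dt : Der A) (X : V A) : V A := (jac D X)ᵀ *ᵥ dV dt X
/-- polarised Weber form -/
def wb (D : Fin 3 → Der A) (dt : Der A) (Y Z : V A) : V A :=
  (jac D Y)ᵀ *ᵥ dV dt Z + (jac D Z)ᵀ *ᵥ dV dt Y
/-- the curl is constant in time -/
def Closed (D : Fin 3 → Der A) (dt : Der A) (w : V A) : Prop :=
  ∀ i l, dt (D i (w l) - D l (w i)) = 0

variable (D D' : Fin 3 → Der A) (d dt dφ : Der A)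

@[simp] theorem dV_apply (X : V A) (i : Fin 3) : dV d X i = d (X i) := rfl
@[simp] theorem dM_apply (F : Mx A) (i j : Fin 3) : dM d F i j = d (F i j) := rfl
@[simp] theorem jac_apply (X : V A) (i I : Fin 3) : jac D X i I = D I (X i) := rfl
@[simp] theorem grad_apply (f : A) (I : Fin 3) : grad D f I = D I f := rfl

theorem der_mul (f g : A) : d (f * g) = d f * g + f * d g := by
  rw [Derivation.leibniz, smul_eq_mul, smul_eq_mul]; ring

theorem dV_add (X Y : V A) : dV d (X + Y) = dV d X + dV d Y := by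
  funext i; simp
theorem dV_sub (X Y : V A) : dV d (X - Y) = dV d X - dV d Y := by
  funext i; simp
theorem dV_neg (X : V A) : dV d (-X) = -dV d X := by
  funext i; simp
theorem dV_zero : dV d (0 : V A) = 0 := by
  funext i; simp
theorem dV_smul (s : A) (X : V A) : dV d (s • X) = d s • X + s • dV d X := by
  funext i; simp only [dV_apply, Pi.smul_apply, Pi.add_apply, smul_eq_mul, der_mul]
theorem dV_mulVec (F : Mx A) (X : V A) : dV d (F *ᵥ X) = dM d F *ᵥ X + F *ᵥ dV d X := by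
  funext i
  simp only [dV_apply, mulVec, dotProduct, Fin.sum_univ_three, map_add, der_mul, dM_apply,
    Pi.add_apply]
  ring
theorem der_dot (X Y : V A) : d (X ⬝ᵥ Y) = dV d X ⬝ᵥ Y + X ⬝ᵥ dV d Y := by
  simp only [dV_apply, dotProduct, Fin.sum_univ_three, map_add, der_mul]
  ring
theorem dV_cross (X Y : V A) : dV d (X ⨯₃ Y) = dV d X ⨯₃ Y + X ⨯₃ dV d Y := by
  apply vext <;> simp [cross_apply] <;> ring

theorem jac_add (X Y : V A) : jac D (X + Y) = jac D X + jac D Y := by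
  ext i j; simp
theorem jac_sub (X Y : V A) : jac D (X - Y) = jac D X - jac D Y := by
  ext i j; simp
theorem jac_zero : jac D (0 : V A) = 0 := by
  ext i j; simp
theorem jac_sum {ι : Type*} (s : Finset ι) (X : ι → V A) :
    jac D (∑ i ∈ s, X i) = ∑ i ∈ s, jac D (X i) := by
  ext i j; simp [Matrix.sum_apply, Finset.sum_apply, map_sum]
theorem jac_smul (s : A) (X : V A) :
    jac D (s • X) = s • jac D X + vecMulVec X (grad D s) := by
  ext i j
  simp only [jac_apply, Pi.smul_apply, smul_eq_mul, der_mul, Matrix.add_apply, Matrix.smul_apply,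
    vecMulVec_apply, grad_apply]
  ring
theorem dM_jac (ht : ∀ i, Cm dt (D i)) (X : V A) : dM dt (jac D X) = jac D (dV dt X) := by
  ext i j; simp [ht j _]

theorem grad_add (f g : A) : grad D (f + g) = grad D f + grad D g := by
  funext i; simp
theorem grad_dot (X Y : V A) : grad D (X ⬝ᵥ Y) = (jac D X)ᵀ *ᵥ Y + (jac D Y)ᵀ *ᵥ X := by
  funext i
  simp only [grad_apply, mulVec, dotProduct, Fin.sum_univ_three, map_add, der_mul, jac_apply,
    transpose_apply, Pi.add_apply]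
  ring

theorem dv_add (X Y : V A) : dv D (X + Y) = dv D X + dv D Y := by
  simp only [dv, Pi.add_apply, map_add]; ring
theorem dv_sub (X Y : V A) : dv D (X - Y) = dv D X - dv D Y := by
  simp only [dv, Pi.sub_apply, map_sub]; ring
theorem dv_neg (X : V A) : dv D (-X) = -dv D X := by
  simp only [dv, Pi.neg_apply, map_neg]; ring
theorem dv_zero : dv D (0 : V A) = 0 := by
  simp [dv]
theorem dv_sum {ι : Type*} (s : Finset ι) (X : ι → V A) :
    dv D (∑ i ∈ s, X i) = ∑ i ∈ s, dv D (X i) := by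
  simp [dv, Finset.sum_apply, map_sum, Finset.sum_add_distrib]
theorem dv_rsmul (c : ℝ) (X : V A) : dv D (c • X) = c • dv D X := by
  simp [dv]
theorem dv_smul (s : A) (X : V A) : dv D (s • X) = grad D s ⬝ᵥ X + s * dv D X := by
  simp only [dv, Pi.smul_apply, smul_eq_mul, der_mul, dotProduct, Fin.sum_univ_three, grad_apply]
  ring
theorem dv_curl (hD : ∀ i j, Cm (D i) (D j)) (U : V A) : dv D (curl D U) = 0 := by
  simp [dv, curl, hD 1 0 _, hD 2 0 _, hD 2 1 _]

theorem curl_add (X Y : V A) : curl D (X + Y) = curl D X + curl D Y := by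
  apply vext <;> simp [curl] <;> ring

/-- V-lemma (Piola identity) -/
theorem dv_cr (hD : ∀ i j, Cm (D i) (D j)) (X Y Z : V A) :
    dv D (cr (jac D X) (jac D Y) Z) = dd (jac D X) (jac D Y) (jac D Z) := by
  simp only [dv, cr_0, cr_1, cr_2, dd, tp_eq, jac_apply, map_add, map_sub, der_mul,
    hD 1 0 _, hD 2 0 _, hD 2 1 _]
  ring

/-- Piola identity for the adjugate -/
theorem dv_adj (hD : ∀ i j, Cm (D i) (D j)) (X Z : V A) :
    2 * dv D ((jac D X).adjugate *ᵥ Z) = dd (jac D X) (jac D X) (jac D Z) := by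
  rw [← dv_cr D hD, cr_self, dv_smul]
  have h2 : grad D (2 : A) = 0 := by
    funext i
    have : (2 : A) = 1 + 1 := by norm_num
    rw [grad_apply, this, map_add, Derivation.map_one_eq_zero, add_zero]; rfl
  rw [h2, zero_dotProduct, zero_add]

/-- main volume term for `Y = F η` -/
theorem dd_main (hD : ∀ i j, Cm (D i) (D j)) (X η : V A) :
    dd (jac D (jac D X *ᵥ η)) (jac D X) (jac D X) = 2 * dv D ((jac D X).det • η) := by
  rw [dd_swap13, ← dv_adj D hD, adj_mul]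

variable {D D' d dt dφ}

theorem Closed.zero : Closed D dt 0 := fun i l => by simp
theorem Closed.add {v w : V A} (hv : Closed D dt v) (hw : Closed D dt w) :
    Closed D dt (v + w) := fun i l => by
  have a := hv i l
  have b := hw i l
  simp only [map_sub, map_add, Pi.add_apply] at a b ⊢
  linear_combination a + b
theorem Closed.neg {v : V A} (hv : Closed D dt v) : Closed D dt (-v) := fun i l => by
  have a := hv i l
  simp only [map_sub, map_neg, Pi.neg_apply] at a ⊢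
  linear_combination -a
theorem Closed.sub {v w : V A} (hv : Closed D dt v) (hw : Closed D dt w) :
    Closed D dt (v - w) := by
  rw [sub_eq_add_neg]; exact hv.add hw.neg
theorem Closed.rsmul {v : V A} (hv : Closed D dt v) (c : ℝ) : Closed D dt (c • v) :=
  fun i l => by
  have a := hv i l
  simp only [Pi.smul_apply, Derivation.map_smul]
  rw [← smul_sub, Derivation.map_smul, a, smul_zero]
theorem Closed.sum {ι : Type*} (s : Finset ι) (v : ι → V A) (h : ∀ i ∈ s, Closed D dt (v i)) :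
    Closed D dt (∑ i ∈ s, v i) :=
  Finset.sum_induction v (Closed D dt) (fun _ _ => Closed.add) Closed.zero h
theorem Closed.grad (hD : ∀ i j, Cm (D i) (D j)) (f : A) : Closed D dt (grad D f) :=
  fun i l => by rw [grad_apply, grad_apply, hD i l f, sub_self, map_zero]
theorem Closed.const (ht : ∀ i, Cm dt (D i)) {w : V A} (hw : dV dt w = 0) : Closed D dt w :=
  fun i l => by
  have a : ∀ j, dt (w j) = 0 := fun j => congrFun hw j
  rw [map_sub, ht i, ht l, a, a, map_zero, map_zero, sub_self]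
theorem Closed.of_eq {v w c : V A} (hv : Closed D dt v) (hc : Closed D dt c) (h : w = v + c) :
    Closed D dt w := h ▸ hv.add hc

variable (D dt)

theorem wb_comm (Y Z : V A) : wb D dt Y Z = wb D dt Z Y := by
  rw [wb, wb, add_comm]
theorem wb_add1 (Y Y' Z : V A) : wb D dt (Y + Y') Z = wb D dt Y Z + wb D dt Y' Z := by
  simp only [wb, jac_add, dV_add, transpose_add, add_mulVec, mulVec_add]; abel
theorem wb_zero1 (Z : V A) : wb D dt 0 Z = 0 := by
  simp [wb, jac_zero, dV_zero]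
theorem wb_sum1 {ι : Type*} (s : Finset ι) (Y : ι → V A) (Z : V A) :
    wb D dt (∑ i ∈ s, Y i) Z = ∑ i ∈ s, wb D dt (Y i) Z := by
  classical
  induction s using Finset.induction_on with
  | empty => simp [wb_zero1]
  | insert a s ha ih => rw [Finset.sum_insert ha, Finset.sum_insert ha, wb_add1, ih]

theorem web_add (X Y : V A) : web D dt (X + Y) = web D dt X + (wb D dt X Y + web D dt Y) := by
  simp only [web, wb, jac_add, dV_add, transpose_add, add_mulVec, mulVec_add]; abel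

/-- the expansion used in `Update` -/
theorem web_update (Xb W Q Y : V A) :
    web D dt (Xb + W + Q + Y) = web D dt (Xb + W + Q) + (wb D dt Xb Y
      + ((jac D W)ᵀ *ᵥ dV dt Y + (jac D Y)ᵀ *ᵥ dV dt W + (jac D Y)ᵀ *ᵥ dV dt Y)
      + wb D dt Q Y) := by
  rw [web_add, wb_add1, wb_add1]
  simp only [wb, web]; abel

/-- W-lemma: `Y` is left undifferentiated in space -/
theorem wb_eq (Y Z : V A) :
    wb D dt Y Z = ((jac D Z)ᵀ *ᵥ dV dt Y - (jac D (dV dt Z))ᵀ *ᵥ Y)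
      + grad D (Y ⬝ᵥ dV dt Z) := by
  rw [wb, grad_dot]; abel

/-- main Weber term for `Y = F η` -/
theorem wb_main (ht : ∀ i, Cm dt (D i)) (X η : V A) :
    wb D dt X (jac D X *ᵥ η)
      = (((jac D X)ᵀ * jac D X) *ᵥ dV dt η - bf (jac D X) (dM dt (jac D X)) *ᵥ η)
        + grad D ((jac D X *ᵥ η) ⬝ᵥ dV dt X) := by
  rw [wb_comm, wb_eq, dV_mulVec, ← dM_jac D dt ht, main_alg]

variable {D dt}

theorem Split.grad {κ : V A} (h : Split D D' κ dφ) (f : A) :
    grad D f = grad D' f + dφ f • κ := by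
  funext i; simp [h i f, mul_comm]
theorem Split.jac {κ : V A} (h : Split D D' κ dφ) (Z : V A) :
    jac D Z = jac D' Z + vecMulVec (dV dφ Z) κ := by
  ext i j; simp [h j (Z i), vecMulVec_apply, mul_comm]
theorem Split.curl {κ : V A} (h : Split D D' κ dφ) (U : V A) :
    curl D U = curl D' U + κ ⨯₃ dV dφ U := by
  apply vext <;> simp [Alg.curl, cross_apply, h _ (U _)] <;> ring
theorem Split.dv {κ : V A} (h : Split D D' κ dφ) (U : V A) :
    dv D U = dv D' U + κ ⬝ᵥ dV dφ U := by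
  simp only [Alg.dv, h _ (U _), dotProduct, Fin.sum_univ_three, dV_apply]; ring

/-- Red1 -/
theorem Split.red1 {κ : V A} (h : Split D D' κ dφ) (s sb sh : A) (hs : s = sb + dφ sh) :
    s • κ = sb • κ - Alg.grad D' sh + Alg.grad D sh := by
  rw [h.grad, hs, add_smul]; abel
/-- Red2 -/
theorem Split.red2 {κ : V A} (h : Split D D' κ dφ) (U Ub Uh : V A) (hU : U = Ub + dV dφ Uh) :
    κ ⨯₃ U = κ ⨯₃ Ub - Alg.curl D' Uh + Alg.curl D Uh := by
  rw [h.curl, hU, map_add]; abel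
/-- SW -/
theorem Split.sw {κ : V A} (h : Split D D' κ dφ) (Z Y : V A) :
    (Alg.jac D Z)ᵀ *ᵥ Y = (dV dφ Z ⬝ᵥ Y) • κ + (Alg.jac D' Z)ᵀ *ᵥ Y := by
  rw [h.jac, transpose_add, add_mulVec, transpose_vecMulVec, vecMulVec_mulVec, add_comm]
  simp
/-- SV -/
theorem Split.sv {κ : V A} (h : Split D D' κ dφ) (P : Mx A) (Z Y : V A) :
    cr P (Alg.jac D Z) Y = κ ⨯₃ (Pᵀ *ᵥ (Y ⨯₃ dV dφ Z)) + cr P (Alg.jac D' Z) Y := by
  rw [h.jac, cr_add2, cr_rank_one, add_comm]

/-- derivative of an inverse -/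
theorem der_inv (d : Der A) (ι J : A) (h : ι * J = 1) : d ι = -(ι * ι * d J) := by
  have e : d ι * J + ι * d J = 0 := by
    rw [← der_mul, h, Derivation.map_one_eq_zero]
  linear_combination ι * e - d ι * h

/-- main Weber term for `η = ζ / J` (level zero) -/
theorem main_zero (g B : Mx A) (ι J : A) (h : ι * J = 1) (ζ : V A) :
    g *ᵥ dV dt (ι • ζ) - B *ᵥ (ι • ζ)
      = (ι • g) *ᵥ dV dt ζ - (ι • B + (ι * ι * dt J) • g) *ᵥ ζ := by
  rw [dV_smul, der_inv dt ι J h]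
  simp only [mulVec_add, mulVec_smul, add_mulVec, smul_mulVec, neg_smul, mulVec_neg]
  abel

end Calc

end Pool.Agent.Lib.MP_fbbbeb_an.Alg
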